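import Mathlib
import Pool.Agent.W609.CR.Stm

set_option autoImplicit false

/-!
# The standard Cremona transformation of an irreducible form
-/

namespace Pool.Agent.W641.CR

open MvPolynomial Pool.Agent.W609.CR

lemma not_dvd {K : Type} [Field K] {d : ℕ} {G : MvPolynomial (Fin 3) K} (hd : 2 ≤ d)
    (hirr : Irreducible G) (hG : G.IsHomogeneous d) (i : Fin 3) :
    ¬ (X i : MvPolynomial (Fin 3) K) ∣ G := by
  rintro ⟨H, hH⟩
  have hX : ¬ IsUnit (X i : MvPolynomial (Fin 3) K) := (MvPolynomial.X_prime (i := i)).not_isUnit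
  have hu : IsUnit H := by
    rcases hirr.isUnit_or_isUnit hH with h | h
    · exact absurd h hX
    · exact h
  have h1 : G.totalDegree = d := hG.totalDegree hirr.ne_zero
  have h2 : H.totalDegree = 0 := by
    exact (MvPolynomial.isUnit_iff_totalDegree_of_isReduced.1 hu).2
  have h3 : G.totalDegree ≤ 1 + 0 := by
    rw [hH]
    refine (MvPolynomial.totalDegree_mul _ _).trans ?_
    rw [h2, MvPolynomial.totalDegree_X]
  omega

lemma exists_zero {K : Type} [Field K] {G : MvPolynomial (Fin 3) K} (i : Fin 3)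
    (h : ¬ (X i : MvPolynomial (Fin 3) K) ∣ G) : ∃ a ∈ G.support, a i = 0 := by
  by_contra hc
  push Not at hc
  apply h
  rw [← G.support_sum_monomial_coeff]
  refine Finset.dvd_sum fun a ha => ?_
  rw [MvPolynomial.X_dvd_monomial]
  right
  exact hc a ha

lemma sum3 (a : Fin 3 →₀ ℕ) : a.degree = a 0 + a 1 + a 2 := by
  rw [Finsupp.degree_eq_sum, Fin.sum_univ_three]

lemma sum_erase (a : Fin 3 →₀ ℕ) (k : Fin 3) :
    (∑ l ∈ Finset.univ.erase k, a l) + a k = a.degree := by
  rw [Finsupp.degree_eq_sum]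
  exact Finset.sum_erase_add _ _ (Finset.mem_univ k)

/-- The order at a coordinate point in terms of exponents. -/
lemma ord_exists {K : Type} [Field K] {d m : ℕ} {G : MvPolynomial (Fin 3) K}
    (hG : G.IsHomogeneous d) (k : Fin 3) (ho : Ord (bs k) m G) :
    (∀ a ∈ G.support, a k + m ≤ d) ∧ ∃ a ∈ G.support, a k + m = d := by
  have h1 : ∀ a ∈ G.support, a k + m ≤ d := fun a ha => exponent_le (n := 2) hG k ho.1 ha
  refine ⟨h1, ?_⟩
  by_contra hc
  push Not at hc
  apply ho.2
  refine mem_of_exponents (n := 2) k fun a ha => ?_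
  have h2 := h1 a ha
  have h3 := hc a ha
  have h4 := homog_degree (n := 2) hG ha
  have h5 := sum_erase a k
  have h6 : (∑ l ∈ (Finset.univ : Finset (Fin (2 + 1))).erase k, a l) + a k = a.degree := h5
  omega

lemma ord_of_exists {K : Type} [Field K] {d m : ℕ} {G : MvPolynomial (Fin 3) K}
    (hG : G.IsHomogeneous d) (k : Fin 3) (h1 : ∀ a ∈ G.support, a k + m ≤ d)
    (h2 : ∃ a ∈ G.support, a k + m = d) : Ord (bs k) m G := by
  refine ⟨?_, ?_⟩
  · refine mem_of_exponents (n := 2) k fun a ha => ?_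
    have h2 := h1 a ha
    have h4 := homog_degree (n := 2) hG ha
    have h6 : (∑ l ∈ (Finset.univ : Finset (Fin (2 + 1))).erase k, a l) + a k = a.degree :=
      sum_erase a k
    omega
  · intro hv
    obtain ⟨a, ha, hak⟩ := h2
    have := exponent_le (n := 2) hG k hv ha
    omega

theorem t_std (h : P_STAR) : P_STD := by
  intro K _ d G m ι u w hd hirr hG hbs hu hw
  have hnd : ∀ i, ¬ (X i : MvPolynomial (Fin 3) K) ∣ G := fun i => not_dvd hd hirr hG i
  have hE := fun k => ord_exists hG k (hbs k)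
  have hmd : ∀ k, m k ≤ d := by
    intro k
    obtain ⟨a, ha, hak⟩ := (hE k).2
    omega
  obtain ⟨a2, ha2, hz2⟩ := exists_zero 2 (hnd 2)
  obtain ⟨a1, ha1, hz1⟩ := exists_zero 1 (hnd 1)
  obtain ⟨a0, ha0, hz0⟩ := exists_zero 0 (hnd 0)
  have hdeg2 : a2 0 + a2 1 + a2 2 = d := by
    rw [← sum3]; exact homog_degree (n := 2) hG ha2
  have hdeg1 : a1 0 + a1 1 + a1 2 = d := by
    rw [← sum3]; exact homog_degree (n := 2) hG ha1
  have hdeg0 : a0 0 + a0 1 + a0 2 = d := by
    rw [← sum3]; exact homog_degree (n := 2) hG ha0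
  have h01 : m 0 + m 1 ≤ d := by
    have e0 := (hE 0).1 a2 ha2
    have e1 := (hE 1).1 a2 ha2
    omega
  have h02 : m 0 + m 2 ≤ d := by
    have e0 := (hE 0).1 a1 ha1
    have e1 := (hE 2).1 a1 ha1
    omega
  have h12 : m 1 + m 2 ≤ d := by
    have e0 := (hE 1).1 a0 ha0
    have e1 := (hE 2).1 a0 ha0
    omega
  refine ⟨h01, h02, h12, ?_⟩
  set N : Fin 3 →₀ ℕ := Finsupp.equivFunOnFinite.symm (fun k => d - m k) with hNdef
  have hNk : ∀ k, N k = d - m k := fun k => by simp [hNdef]
  have hNle : ∀ a ∈ G.support, a ≤ N := by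
    intro a ha k
    rw [hNk]
    have := (hE k).1 a ha
    omega
  have hNdeg : ∀ k, N k = degreeOf k G := by
    intro k
    rw [hNk, MvPolynomial.degreeOf_eq_sup]
    obtain ⟨a, ha, hak⟩ := (hE k).2
    apply le_antisymm
    · have h1 : a k ≤ G.support.sup fun b => b k := Finset.le_sup (f := fun b => b k) ha
      omega
    · refine Finset.sup_le fun b hb => ?_
      have := (hE k).1 b hb
      omega
  obtain ⟨hirr', -, hdeg', hrr⟩ := h K G N hirr hnd hNdeg
  set G' := rev (n := 2) N G with hG'def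
  have hNsum : N.degree = (d - m 0) + (d - m 1) + (d - m 2) := by
    rw [sum3, hNk, hNk, hNk]
  have hhom : G'.IsHomogeneous (2 * d - (m 0 + m 1 + m 2)) := by
    have h1 := rev_homog (n := 2) hG hNle
    have h2 : N.degree - d = 2 * d - (m 0 + m 1 + m 2) := by
      rw [hNsum]
      have e0 := hmd 0
      have e1 := hmd 1
      have e2 := hmd 2
      omega
    rw [← h2]
    exact h1
  have hN'le : ∀ a ∈ G'.support, a ≤ N := by
    intro a ha
    obtain ⟨b, hb, rfl⟩ := mem_support_rev (n := 2) ha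
    exact tsub_le_self
  have hne' : G'.support.Nonempty := by
    rw [MvPolynomial.support_nonempty]
    exact hirr'.ne_zero
  have hex : ∀ k, ∃ a ∈ G'.support, a k = N k := by
    intro k
    have h1 := hdeg' k
    rw [MvPolynomial.degreeOf_eq_sup] at h1
    obtain ⟨a, ha, hak⟩ := Finset.exists_mem_eq_sup _ hne' (fun b : Fin 3 →₀ ℕ => b k)
    refine ⟨a, ha, ?_⟩
    rw [← h1]
    exact hak.symm
  refine ⟨G', hirr', hhom, ?_, ?_⟩
  · have key : ∀ k (c : ℕ), c + N k = 2 * d - (m 0 + m 1 + m 2) → Ord (bs k) c G' := by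
      intro k c hc
      apply ord_of_exists hhom k
      · intro a ha
        have := hN'le a ha k
        omega
      · obtain ⟨a, ha, hak⟩ := hex k
        exact ⟨a, ha, by omega⟩
    intro k
    have e0 := hmd 0
    have e1 := hmd 1
    have e2 := hmd 2
    fin_cases k
    · apply key
      have := hNk 0
      simp only [Fin.zero_eta, Fin.isValue, Matrix.cons_val_zero]
      omega
    · apply key
      have := hNk 1
      simp only [Fin.mk_one, Fin.isValue, Matrix.cons_val_one, Matrix.cons_val_zero]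
      omega
    · apply key
      have := hNk 2
      simp only [Fin.reduceFinMk, Fin.isValue, Matrix.cons_val]
      omega
  · intro j
    refine ⟨?_, ?_⟩
    · exact rev_mem (n := 2) hNle (u j) (hu j) (w j) (hw j).1
    · intro hv
      apply (hw j).2
      have h1 := rev_mem (n := 2) hN'le (fun k => (u j k)⁻¹) (fun k => inv_ne_zero (hu j k))
        (w j + 1) hv
      simp only [inv_inv] at h1
      rw [hrr] at h1
      exact h1

end Pool.Agent.W641.CR
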